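import Mathlib
import Pool.Agent.Y325.Dil.Main

/-!
# Three commuting unital CP maps with no dilation at all

The maps are three commuting stochastic `8 × 8` matrices, acting on the diagonal von Neumann
algebra `A = ℂ⁸`. All definitions are in `Pool.Agent.Y325.Dil.Defs`.
-/

set_option autoImplicit false

open Pool.Agent.Y325.Dil

namespace Pool.Agent.Results.MP_0a86e9_an.NoDilation

/-- There are a (finite dimensional, commutative) von Neumann algebra `A` and three commuting
unital normal CP maps on `A` such that the associated CP-semigroup over `ℕ³` has no dilation. -/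
theorem result.{u} : ∃ (H : Type) (_ : NormedAddCommGroup H) (_ : InnerProductSpace ℂ H)
    (_ : CompleteSpace H) (A : VonNeumannAlgebra H) (T : Fin 3 → (H →L[ℂ] H) → (H →L[ℂ] H)),
    FiniteDimensional ℂ H ∧ (∀ x ∈ A, ∀ y ∈ A, x * y = y * x) ∧
    (∀ c, IsNCP A (T c) ∧ T c 1 = 1) ∧ (∀ c d, ∀ a ∈ A, T c (T d a) = T d (T c a)) ∧
    IsCPSemigroup A (gen T) ∧ ¬ HasDilation.{u} A (gen T) := by
  refine ⟨HH, inferInstance, inferInstance, inferInstance, AD, TT, inferInstance, ?_,
    fun c => ⟨(PP_stoch c).ncp, TT_one c⟩, fun c d a _ => TT_comm c d a, semi_TT, ?_⟩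
  · intro x hx y hy
    rw [← eq_D' x hx, ← eq_D' y hy, D_mul, D_mul, mul_comm]
  · rintro ⟨K, _, _, _, V, B, θ, h⟩
    exact no_dil V B θ h

end Pool.Agent.Results.MP_0a86e9_an.NoDilation
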